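import Pool.Agent.helper44.AX.SpecA
import Pool.Agent.helper55.FLD.All

/-!
# Project AX, row SIM: a closed normal subgroup is trivial or open, up to finite index, under `ad ρ`
-/

set_option autoImplicit false

namespace Pool.Agent.AX

open Matrix Polynomial Topology Filter Pool.Agent.GO Pool.Agent.AR Pool.Agent.RG Pool.Agent.HZ
  Pool.Agent.DS Pool.Agent.FLD MeasureTheory NumberField

/-- the main argument for a group with small image -/
theorem SIM_aux (p : ℕ) [Fact p.Prime] (G : Type) [Group G] [TopologicalSpace G]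
    [IsTopologicalGroup G] [CompactSpace G] (F : Type)
    [NormedField F] [NormedAlgebra ℚ_[p] F] [FiniteDimensional ℚ_[p] F] [CharZero F]
    (ρ : G →* Matrix (Fin 2) (Fin 2) F) (hρ : Continuous ρ)
    (V : G →* Matrix (Fin 0) (Fin 0) ℚ_[p]) (hV : Continuous V)
    (R : Subring (Matrix (Fin 0) (Fin 0) ℚ_[p] × Matrix (Fin 2) (Fin 2) F))
    (hR : ∀ x, x ∈ R ↔ Integral p x) (hL : Lat p R)
    (hRs : ∀ (c : ℚ_[p]), ‖c‖ ≤ 1 → ∀ x ∈ R, c • x ∈ R)
    (hsm : ∀ g, Dv p R 2 ((V.prod ρ) g - 1))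
    (irr : ∀ N : Submodule F (Matrix (Fin 2) (Fin 2) F), N ≠ ⊥ → (∀ Y ∈ N, Y.trace = 0) →
      (∀ g, ∀ Y ∈ N, ρ g * Y * ρ g⁻¹ ∈ N) →
      ∀ Y : Matrix (Fin 2) (Fin 2) F, Y.trace = 0 → Y ∈ N)
    (H : Subgroup G) (hH : H.Normal) (hHc : IsClosed (H : Set G)) :
    (∀ h ∈ H, ∃ c : F, ρ h = c • 1) ∨
    ∃ N : ℕ, ∀ g : G, Dv p R N ((V.prod ρ) g - 1) → ∃ h ∈ H, ∃ c : F, ρ g = c • ρ h := by
  have hTA : TA_stmt := TA
  have hLG : LG_stmt := LG hTA
  have hRT : RT_stmt := RT hTA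
  have hRE : RE_stmt := RE hLG hRT
  have hAD : AD_stmt := AD hTA
  haveI : CompactSpace H := isCompact_iff_compactSpace.mp hHc.isCompact
  obtain ⟨t1, t2, t3, t4, t5, t6, t7, t8⟩ := TL F
  obtain ⟨p1, p2, p3, p4, p5⟩ := TP p _ R hL hRs G (V.prod ρ) hsm
  set T := TT p R (V.prod ρ) with hT
  set Φ' : H →* Matrix (Fin 0) (Fin 0) ℚ_[p] × Matrix (Fin 2) (Fin 2) F :=
    (V.comp H.subtype).prod (ρ.comp H.subtype) with hΦ'
  have hΦe : ∀ h : H, Φ' h = (V.prod ρ) h.1 := fun h => rfl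
  have hsm' : ∀ h : H, Dv p R 2 (Φ' h - 1) := fun h => hsm h.1
  obtain ⟨q1, q2, q3, q4, q5⟩ := TP p _ R hL hRs H Φ' hsm'
  set T' := TT p R Φ' with hT'
  have hzero' : (0 : Matrix (Fin 0) (Fin 0) ℚ_[p] × Matrix (Fin 2) (Fin 2) F) ∈ T' :=
    ⟨R.zero_mem, fun i _ => ⟨1, by
      rw [map_one, sub_self, smul_zero, sub_zero]
      exact Dv.zero _⟩⟩
  have hTT : T' ⊆ T := by
    rintro x ⟨hx, hx2⟩
    refine ⟨hx, fun i hi => ?_⟩
    obtain ⟨h, hh⟩ := hx2 i hi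
    exact ⟨h.1, hh⟩
  have htlc : ∀ (c : ℚ_[p]) (Y : Matrix (Fin 2) (Fin 2) F), tl (c • Y) = c • tl Y :=
    fun c Y => FIN_smul_real TL c Y
  -- the two subspaces
  set b : Submodule ℚ_[p] (Matrix (Fin 2) (Fin 2) F) :=
    Submodule.span ℚ_[p] {y | ∃ x ∈ T, tl x.2 = y} with hb
  set m : Submodule ℚ_[p] (Matrix (Fin 2) (Fin 2) F) :=
    Submodule.span ℚ_[p] {y | ∃ x ∈ T', tl x.2 = y} with hm
  have hmb : m ≤ b := Submodule.span_mono fun y hy => by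
    obtain ⟨x, hx, h⟩ := hy
    exact ⟨x, hTT hx, h⟩
  -- conjugation as a linear map
  let cj : G → Matrix (Fin 2) (Fin 2) F →ₗ[ℚ_[p]] Matrix (Fin 2) (Fin 2) F := fun g =>
    (LinearMap.mulRight ℚ_[p] (ρ g⁻¹)) ∘ₗ (LinearMap.mulLeft ℚ_[p] (ρ g))
  have hcj : ∀ g Y, cj g Y = ρ g * Y * ρ g⁻¹ := fun g Y => rfl
  have hconj : ∀ g, ∀ x ∈ T, (V g * x.1 * V g⁻¹, ρ g * x.2 * ρ g⁻¹) ∈ T := by
    intro g x hx
    exact p4 g x hx
  have hconj' : ∀ g, ∀ x ∈ T', (V.prod ρ) g * x * (V.prod ρ) g⁻¹ ∈ T' := by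
    rintro g x ⟨hx, hx2⟩
    have hgR : (V.prod ρ) g ∈ R := mem_of_dv_sub_one (hsm g)
    have hgR' : (V.prod ρ) g⁻¹ ∈ R := mem_of_dv_sub_one (hsm g⁻¹)
    refine ⟨R.mul_mem (R.mul_mem hgR hx) hgR', fun i hi => ?_⟩
    obtain ⟨h, hh⟩ := hx2 i hi
    refine ⟨⟨g * h.1 * g⁻¹, hH.conj_mem h.1 h.2 g⟩, ?_⟩
    have hinv : (V.prod ρ) g * (V.prod ρ) g⁻¹ = 1 := by rw [← map_mul, mul_inv_cancel, map_one]
    have e : Φ' ⟨g * h.1 * g⁻¹, hH.conj_mem h.1 h.2 g⟩ - 1 -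
        ((p : ℚ_[p]) ^ i) • ((V.prod ρ) g * x * (V.prod ρ) g⁻¹) =
        (V.prod ρ) g * (Φ' h - 1 - ((p : ℚ_[p]) ^ i) • x) * (V.prod ρ) g⁻¹ := by
      rw [hΦe, hΦe]
      simp only [map_mul]
      rw [mul_sub, sub_mul, mul_sub, sub_mul, mul_one, hinv, mul_smul_comm, smul_mul_assoc]
    rw [e]
    exact (hh.mul_left hgR).mul_right hgR'
  have hbst : ∀ g, ∀ Y ∈ b, ρ g * Y * ρ g⁻¹ ∈ b := by
    intro g Y hY
    have : b ≤ b.comap (cj g) := by
      rw [hb, Submodule.span_le]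
      rintro y ⟨x, hx, rfl⟩
      show cj g (tl x.2) ∈ b
      rw [hcj, ← t5]
      exact Submodule.subset_span ⟨_, hconj g x hx, rfl⟩
    exact this hY
  have hmst : ∀ g, ∀ Y ∈ m, ρ g * Y * ρ g⁻¹ ∈ m := by
    intro g Y hY
    have : m ≤ m.comap (cj g) := by
      rw [hm, Submodule.span_le]
      rintro y ⟨x, hx, rfl⟩
      show cj g (tl x.2) ∈ m
      rw [hcj, ← t5]
      exact Submodule.subset_span ⟨_, hconj' g x hx, rfl⟩
    exact this hY
  have hbtr : ∀ Y ∈ b, Y.trace = 0 := by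
    intro Y hY
    rw [hb] at hY
    induction hY using Submodule.span_induction with
    | mem y hy =>
      obtain ⟨x, _, rfl⟩ := hy
      exact t1 _
    | zero => simp
    | add y z _ _ hy hz => rw [Matrix.trace_add, hy, hz, add_zero]
    | smul c y _ hy => rw [Matrix.trace_smul, hy, smul_zero]
  by_cases hm0 : m = ⊥
  · left
    intro h hh
    by_contra hcon
    push Not at hcon
    obtain ⟨x, hx, hx0⟩ := NZ hLG hAD TL TP p (Fin 0) F H (V.comp H.subtype) (ρ.comp H.subtype) R hR hL hRs hsm'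
      ⟨h, hh⟩ hcon
    have : tl x.2 ∈ m := Submodule.subset_span ⟨x, hx, rfl⟩
    rw [hm0] at this
    exact hx0 this
  · right
    haveI : FiniteDimensional ℚ_[p] (Matrix (Fin 2) (Fin 2) F) := inferInstance
    have hideal : ∀ S : Submodule ℚ_[p] (Matrix (Fin 2) (Fin 2) F), S ≤ b →
        (∀ g, ∀ Y ∈ S, ρ g * Y * ρ g⁻¹ ∈ S) → ∀ Y ∈ b, ∀ W ∈ S, Y * W - W * Y ∈ S := by
      intro S _ hS Y hY W hW
      rw [hb] at hY
      induction hY using Submodule.span_induction with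
      | mem y hy =>
        obtain ⟨x, hx, rfl⟩ := hy
        rw [← t6]
        let S' : Submodule ℚ_[p] (Matrix (Fin 0) (Fin 0) ℚ_[p] × Matrix (Fin 2) (Fin 2) F) :=
          (⊥ : Submodule ℚ_[p] (Matrix (Fin 0) (Fin 0) ℚ_[p])).prod S
        have h11 := ID p _ R hL G (V.prod ρ) hsm S' (by
          rintro g ⟨w1, w2⟩ hw
          obtain ⟨hw1, hw2⟩ := Submodule.mem_prod.mp hw
          have hw1' : w1 = 0 := hw1
          refine Submodule.mem_prod.mpr ⟨?_, hS g w2 hw2⟩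
          show V g * w1 * V g⁻¹ ∈ (⊥ : Submodule ℚ_[p] (Matrix (Fin 0) (Fin 0) ℚ_[p]))
          rw [hw1']
          simp) x hx (0, W) (Submodule.mem_prod.mpr ⟨Submodule.zero_mem _, hW⟩)
        exact (Submodule.mem_prod.mp h11).2
      | zero => simp
      | add y z _ _ hy hz =>
        have e : (y + z) * W - W * (y + z) = (y * W - W * y) + (z * W - W * z) := by
          noncomm_ring
        rw [e]
        exact S.add_mem hy hz
      | smul c y _ hy =>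
        have e : (c • y) * W - W * (c • y) = c • (y * W - W * y) := by
          rw [smul_mul_assoc, mul_smul_comm, smul_sub]
        rw [e]
        exact S.smul_mem c hy
    have hmeq : m = b := AL ℚ_[p] F G ρ b m hbtr hmb hm0 hbst hmst hideal irr
    have hcont : Continuous (V.prod ρ) := hV.prodMk hρ
    have hcont' : Continuous Φ' := hcont.comp continuous_subtype_val
    obtain ⟨j₀, hj₀, -, re2⟩ := hRE p _ R hL G (V.prod ρ) hcont hsm
    obtain ⟨j₁, hj₁, re1, -⟩ := hRE p _ R hL H Φ' hcont' hsm'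
    obtain ⟨k, hk⟩ := BD p (Matrix (Fin 2) (Fin 2) F)
      ((fun x : Matrix (Fin 0) (Fin 0) ℚ_[p] × Matrix (Fin 2) (Fin 2) F => tl x.2) '' T)
      {y | ∃ x ∈ T', tl x.2 = y}
      (p5.image (CB_tl_cont.comp continuous_snd))
      ⟨0, hzero', t2 0 (by simp)⟩
      (by
        rintro y ⟨x, hx, rfl⟩ y' ⟨x', hx', rfl⟩
        exact ⟨x + x', q2 x hx x' hx', by rw [Prod.snd_add, t3]⟩)
      (by
        rintro c hcn y ⟨x, hx, rfl⟩
        exact ⟨c • x, q3 c hcn x hx, by rw [Prod.smul_snd, htlc]⟩)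
      (by
        rintro y ⟨x, hx, rfl⟩
        have h1 : tl x.2 ∈ b := Submodule.subset_span ⟨x, hx, rfl⟩
        rw [← hmeq] at h1
        exact h1)
    refine ⟨j₀ + (k + j₁), fun g hg => ?_⟩
    obtain ⟨Z, hZT, hZ⟩ := re2 (k + j₁) g hg
    obtain ⟨x₁, hx₁, hx₁t⟩ := hk (tl Z.2) ⟨Z, hZT, rfl⟩
    obtain ⟨h, hh⟩ := re1 x₁ hx₁
    refine ⟨h.1, h.2, ?_⟩
    have inv1 : ∀ x : G, ρ x * ρ x⁻¹ = 1 := fun x => by rw [← map_mul, mul_inv_cancel, map_one]
    have inv2 : ∀ x : G, ρ x⁻¹ * ρ x = 1 := fun x => by rw [← map_mul, inv_mul_cancel, map_one]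
    have inv3 : ∀ x : G, (V.prod ρ) x * (V.prod ρ) x⁻¹ = 1 := fun x => by
      rw [← map_mul, mul_inv_cancel, map_one]
    have inv4 : ∀ x : G, (V.prod ρ) x⁻¹ * (V.prod ρ) x = 1 := fun x => by
      rw [← map_mul, inv_mul_cancel, map_one]
    have hcen := t7 (((p : ℚ_[p]) ^ (k + j₁)) • Z.2) (((p : ℚ_[p]) ^ j₁) • x₁.2) (by
      rw [htlc, htlc, hx₁t, smul_smul, ← pow_add, add_comm j₁ k])
    have key := hAD p _ R hL.sep hL.abs ((V.prod ρ) g) ((V.prod ρ) g⁻¹) ((V.prod ρ) h.1)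
      ((V.prod ρ) (h.1)⁻¹) (((p : ℚ_[p]) ^ (k + j₁)) • Z) (((p : ℚ_[p]) ^ j₁) • x₁)
      (inv3 g) (inv4 g) (inv3 h.1) (inv4 h.1) (hsm g) (hsm g⁻¹) (hsm h.1) (hsm (h.1)⁻¹)
      (ppow_smul_mem hZT.1 _) (ppow_smul_mem hx₁.1 _) hZ hh
      (by
        intro c
        apply Prod.ext
        · exact Subsingleton.elim _ _
        · exact hcen c.2)
    exact t8 (ρ g) (ρ g⁻¹) (ρ h.1) (ρ (h.1)⁻¹) (inv1 g) (inv1 h.1) (inv2 h.1) (by
      intro c
      exact congrArg Prod.snd (key (0, c)))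

theorem SIM : SIM_stmt := by
  intro p _ Γ _ _ _ _ F Ω _ _ _ _ _ _ ρ hρ hSI Z hZn hZc
  haveI : CharZero F := charZero_of_injective_algebraMap (algebraMap ℚ_[p] F).injective
  obtain ⟨R, hR, hL, hRs⟩ := LA p (Fin 0) F
  set V : Γ →* Matrix (Fin 0) (Fin 0) ℚ_[p] := 1 with hVd
  have hV : Continuous V := continuous_const
  have hΦ : Continuous (V.prod ρ) := hV.prodMk hρ
  obtain ⟨U, hU, hU2⟩ := OG p _ R hL Γ (V.prod ρ) hΦ 2
  haveI : CompactSpace U := isCompact_iff_compactSpace.mp (U.isClosed_of_isOpen hU).isCompact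
  haveI hUf : U.FiniteIndex := by
    haveI := Subgroup.quotient_finite_of_isOpen U hU
    exact Subgroup.finiteIndex_of_finite_quotient
  have irr := IR F Ω Γ ρ hSI U hUf
  haveI := hZn
  have key := SIM_aux p U F (ρ.comp U.subtype) (hρ.comp continuous_subtype_val) (V.comp U.subtype)
    (hV.comp continuous_subtype_val) R hR hL hRs (fun g => hU2 g.1 g.2)
    (fun N hN1 hN2 hN3 => irr N hN1 hN2 (fun g hg Y hY => hN3 ⟨g, hg⟩ Y hY))
    (Z.subgroupOf U) inferInstance (hZc.preimage continuous_subtype_val)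
  rcases key with key | ⟨N, hN⟩
  · left
    have hle : U.subgroupOf Z ≤ (adKer ρ).subgroupOf Z := by
      intro z hz
      rw [Subgroup.mem_subgroupOf] at hz ⊢
      exact key ⟨z.1, hz⟩ (by
        rw [Subgroup.mem_subgroupOf]
        exact z.2)
    haveI : ((adKer ρ).subgroupOf Z).FiniteIndex := Subgroup.finiteIndex_of_le hle
    exact Subgroup.FiniteIndex.index_ne_zero
  · right
    obtain ⟨U', hU', hU2'⟩ := OG p _ R hL Γ (V.prod ρ) hΦ N
    have hUU : IsOpen ((U ⊓ U' : Subgroup Γ) : Set Γ) := hU.inter hU'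
    haveI : (U ⊓ U').FiniteIndex := by
      haveI := Subgroup.quotient_finite_of_isOpen (U ⊓ U') hUU
      exact Subgroup.finiteIndex_of_finite_quotient
    refine Subgroup.finiteIndex_of_le (H := U ⊓ U') ?_
    rintro g ⟨hg1, hg2⟩
    obtain ⟨h, hh1, c, hc⟩ := hN ⟨g, hg1⟩ (hU2' g hg2)
    rw [mem_sup_adKer]
    exact ⟨h.1, hh1, c, hc⟩

end Pool.Agent.AX
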